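import Pool.Agent.H174.GP.StP

set_option autoImplicit false

open MeasureTheory ProbabilityTheory Finset

namespace Pool.Agent.H404.GP174.Var

open Pool.Agent.H174.GP

section step

variable {Ω : Type*} [MeasurableSpace Ω] {μ : Measure Ω} [IsProbabilityMeasure μ] {S X : Ω → ℝ}

theorem int_pow (hS : Measurable S) (h4 : Integrable (fun ω => S ω ^ 4) μ) {k : ℕ} (hk : k ≤ 4) :
    Integrable (fun ω => S ω ^ k) μ := by
  refine Integrable.mono' ((integrable_const (1 : ℝ)).add h4)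
    (hS.pow_const k).aestronglyMeasurable (Filter.Eventually.of_forall fun ω => ?_)
  rw [Real.norm_eq_abs, abs_pow]
  show |S ω| ^ k ≤ 1 + S ω ^ 4
  have h5 : S ω ^ 4 = |S ω| ^ 4 := by
    rw [← abs_pow, abs_of_nonneg (by positivity)]
  rw [h5]
  rcases le_total |S ω| 1 with h | h
  · have h6 : |S ω| ^ k ≤ 1 := pow_le_one₀ (abs_nonneg _) h
    have h7 : 0 ≤ |S ω| ^ 4 := by positivity
    linarith
  · have h6 : |S ω| ^ k ≤ |S ω| ^ 4 := pow_le_pow_right₀ h hk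
    linarith

theorem mixed (hS : Measurable S) (hX : Measurable X) (hi : IndepFun S X μ)
    (hS4 : Integrable (fun ω => S ω ^ 4) μ) (hX4 : Integrable (fun ω => X ω ^ 4) μ) {k l : ℕ}
    (hk : k ≤ 4) (hl : l ≤ 4) :
    Integrable (fun ω => S ω ^ k * X ω ^ l) μ ∧
    ∫ ω, S ω ^ k * X ω ^ l ∂μ = (∫ ω, S ω ^ k ∂μ) * ∫ ω, X ω ^ l ∂μ := by
  have h1 : IndepFun (fun ω => S ω ^ k) (fun ω => X ω ^ l) μ :=
    hi.comp (measurable_id.pow_const k) (measurable_id.pow_const l)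
  exact ⟨h1.integrable_mul (int_pow hS hS4 hk) (int_pow hX hX4 hl),
    h1.integral_fun_mul_eq_mul_integral (hS.pow_const k).aestronglyMeasurable
      (hX.pow_const l).aestronglyMeasurable⟩

theorem step (hS : Measurable S) (hX : Measurable X) (hi : IndepFun S X μ)
    (hS4 : Integrable (fun ω => S ω ^ 4) μ) (hX4 : Integrable (fun ω => X ω ^ 4) μ)
    (hS0 : ∫ ω, S ω ∂μ = 0) (hX0 : ∫ ω, X ω ∂μ = 0) :
    Integrable (fun ω => (S ω + X ω) ^ 4) μ ∧ ∫ ω, (S ω + X ω) ∂μ = 0 ∧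
    ∫ ω, (S ω + X ω) ^ 2 ∂μ = (∫ ω, S ω ^ 2 ∂μ) + ∫ ω, X ω ^ 2 ∂μ ∧
    ∫ ω, (S ω + X ω) ^ 4 ∂μ = (∫ ω, S ω ^ 4 ∂μ) +
      6 * ((∫ ω, S ω ^ 2 ∂μ) * ∫ ω, X ω ^ 2 ∂μ) + ∫ ω, X ω ^ 4 ∂μ := by
  have hS1 : ∫ ω, S ω ^ 1 ∂μ = 0 := by simpa only [pow_one] using hS0
  have hX1 : ∫ ω, X ω ^ 1 ∂μ = 0 := by simpa only [pow_one] using hX0
  obtain ⟨i11, e11⟩ := mixed hS hX hi hS4 hX4 (k := 1) (l := 1) (by norm_num) (by norm_num)
  obtain ⟨i31, e31⟩ := mixed hS hX hi hS4 hX4 (k := 3) (l := 1) (by norm_num) (by norm_num)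
  obtain ⟨i22, e22⟩ := mixed hS hX hi hS4 hX4 (k := 2) (l := 2) (by norm_num) (by norm_num)
  obtain ⟨i13, e13⟩ := mixed hS hX hi hS4 hX4 (k := 1) (l := 3) (by norm_num) (by norm_num)
  rw [hS1, zero_mul] at e11 e13
  rw [hX1, mul_zero] at e31
  have iS : Integrable S μ := by
    have := int_pow hS hS4 (k := 1) (by norm_num)
    simpa only [pow_one] using this
  have iX : Integrable X μ := by
    have := int_pow hX hX4 (k := 1) (by norm_num)
    simpa only [pow_one] using this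
  have iS2 := int_pow hS hS4 (k := 2) (by norm_num)
  have iX2 := int_pow hX hX4 (k := 2) (by norm_num)
  have f4 : (fun ω => (S ω + X ω) ^ 4) = fun ω => S ω ^ 4 + 4 * (S ω ^ 3 * X ω ^ 1) +
      6 * (S ω ^ 2 * X ω ^ 2) + 4 * (S ω ^ 1 * X ω ^ 3) + X ω ^ 4 := by
    funext ω
    ring
  have f2 : (fun ω => (S ω + X ω) ^ 2) = fun ω => S ω ^ 2 + 2 * (S ω ^ 1 * X ω ^ 1) + X ω ^ 2 := by
    funext ω
    ring
  have j1 : Integrable (fun ω => S ω ^ 4 + 4 * (S ω ^ 3 * X ω ^ 1)) μ := hS4.add (i31.const_mul 4)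
  have j2 : Integrable (fun ω => S ω ^ 4 + 4 * (S ω ^ 3 * X ω ^ 1) +
      6 * (S ω ^ 2 * X ω ^ 2)) μ := j1.add (i22.const_mul 6)
  have j3 : Integrable (fun ω => S ω ^ 4 + 4 * (S ω ^ 3 * X ω ^ 1) +
      6 * (S ω ^ 2 * X ω ^ 2) + 4 * (S ω ^ 1 * X ω ^ 3)) μ := j2.add (i13.const_mul 4)
  have j4 : Integrable (fun ω => S ω ^ 2 + 2 * (S ω ^ 1 * X ω ^ 1)) μ := iS2.add (i11.const_mul 2)
  refine ⟨?_, ?_, ?_, ?_⟩
  · rw [f4]
    exact j3.add hX4
  · rw [integral_add iS iX, hS0, hX0, add_zero]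
  · rw [f2, integral_add j4 iX2, integral_add iS2 (i11.const_mul 2), integral_const_mul, e11,
      mul_zero, add_zero]
  · rw [f4, integral_add j3 hX4, integral_add j2 (i13.const_mul 4), integral_add j1 (i22.const_mul 6),
      integral_add hS4 (i31.const_mul 4), integral_const_mul, integral_const_mul,
      integral_const_mul, e31, e13, e22, mul_zero, add_zero, add_zero]

end step

theorem coord_integral (g : ℝ → ℝ) (hg : Measurable g) (j : ℕ) :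
    ∫ ω : ℕ → ℝ, g (ω j) ∂PP = ∫ x, g x ∂lap := by
  have h := measurePreserving_eval_infinitePi (fun _ : ℕ => lap) j
  have h1 : Measure.map (Function.eval j) PP = lap := h.map_eq
  rw [← h1, integral_map (measurable_pi_apply j).aemeasurable hg.aestronglyMeasurable]

theorem coord_integrable (g : ℝ → ℝ) (hg : Measurable g) (hi : Integrable g lap) (j : ℕ) :
    Integrable (fun ω : ℕ → ℝ => g (ω j)) PP := by
  have h := measurePreserving_eval_infinitePi (fun _ : ℕ => lap) j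
  exact (h.integrable_comp hg.aestronglyMeasurable).2 hi

theorem odd_integral (h1 : S_L3) (g : ℝ → ℝ) (hg : Measurable g) (ho : ∀ x, g (-x) = - g x) :
    ∫ x, g x ∂lap = 0 := by
  have h2 : ∫ x, g x ∂lap = - ∫ x, g x ∂lap := by
    calc ∫ x, g x ∂lap = ∫ x, g x ∂(Measure.map (fun x : ℝ => -x) lap) := by rw [h1.1]
      _ = ∫ x, g (-x) ∂lap :=
        integral_map measurable_neg.aemeasurable hg.aestronglyMeasurable
      _ = - ∫ x, g x ∂lap := by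
        rw [← integral_neg]
        exact integral_congr_ae (Filter.Eventually.of_forall ho)
  linarith

theorem gp_all (h1 : S_L3) (φ : ℕ → ℝ → ℝ) (hm : ∀ j, Measurable (φ j))
    (ho : ∀ j, ∀ x, φ j (-x) = - φ j x) (h4 : ∀ j, Integrable (fun x => (φ j x) ^ 4) lap)
    (J : Finset ℕ) :
    (∫ ω, (∑ j ∈ J, φ j (ω j)) ∂PP) = 0 ∧
    (∫ ω, (∑ j ∈ J, φ j (ω j)) ^ 2 ∂PP) = ∑ j ∈ J, ∫ x, (φ j x) ^ 2 ∂lap ∧
    Integrable (fun ω : ℕ → ℝ => (∑ j ∈ J, φ j (ω j)) ^ 4) PP ∧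
    (∫ ω, (∑ j ∈ J, φ j (ω j)) ^ 4 ∂PP) ≤ 3 * (∑ j ∈ J, ∫ x, (φ j x) ^ 2 ∂lap) ^ 2
      + ∑ j ∈ J, ∫ x, (φ j x) ^ 4 ∂lap := by
  induction J using Finset.induction_on with
  | empty =>
    refine ⟨?_, ?_, ?_, ?_⟩
    · simp
    · simp
    · simp
    · simp
  | insert i J hiJ ih =>
    obtain ⟨m0, m2, mi, m4⟩ := ih
    have hind : iIndepFun (fun (j : ℕ) (ω : ℕ → ℝ) => φ j (ω j)) PP := iIndepFun_infinitePi hm
    have hmj : ∀ j, Measurable (fun ω : ℕ → ℝ => φ j (ω j)) :=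
      fun j => (hm j).comp (measurable_pi_apply j)
    have hSm : Measurable (fun ω : ℕ → ℝ => ∑ j ∈ J, φ j (ω j)) :=
      Finset.measurable_fun_sum J fun j _ => hmj j
    have hI : IndepFun (fun ω : ℕ → ℝ => ∑ j ∈ J, φ j (ω j)) (fun ω : ℕ → ℝ => φ i (ω i)) PP := by
      have := hind.indepFun_finsetSum_of_notMem hmj hiJ
      have h5 : (∑ j ∈ J, fun ω : ℕ → ℝ => φ j (ω j)) = fun ω : ℕ → ℝ => ∑ j ∈ J, φ j (ω j) := by
        funext ω
        rw [Finset.sum_apply]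
      rw [h5] at this
      exact this
    have hX4 : Integrable (fun ω : ℕ → ℝ => φ i (ω i) ^ 4) PP :=
      coord_integrable (fun x => φ i x ^ 4) ((hm i).pow_const 4) (h4 i) i
    have hX0 : ∫ ω : ℕ → ℝ, φ i (ω i) ∂PP = 0 := by
      rw [coord_integral (φ i) (hm i) i]
      exact odd_integral h1 _ (hm i) (ho i)
    obtain ⟨s1, s2, s3, s4⟩ := step hSm (hmj i) hI mi hX4 m0 hX0
    have e2 : ∫ ω : ℕ → ℝ, φ i (ω i) ^ 2 ∂PP = ∫ x, (φ i x) ^ 2 ∂lap :=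
      coord_integral (fun x => φ i x ^ 2) ((hm i).pow_const 2) i
    have e4 : ∫ ω : ℕ → ℝ, φ i (ω i) ^ 4 ∂PP = ∫ x, (φ i x) ^ 4 ∂lap :=
      coord_integral (fun x => φ i x ^ 4) ((hm i).pow_const 4) i
    have hsum : ∀ ω : ℕ → ℝ, ∑ j ∈ insert i J, φ j (ω j) = (∑ j ∈ J, φ j (ω j)) + φ i (ω i) := by
      intro ω
      rw [Finset.sum_insert hiJ, add_comm]
    simp only [hsum]
    rw [Finset.sum_insert hiJ, Finset.sum_insert hiJ]
    refine ⟨s2, ?_, s1, ?_⟩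
    · rw [s3, m2, e2, add_comm]
    · rw [s4, e2, e4, m2]
      have n1 : 0 ≤ ∫ x, (φ i x) ^ 2 ∂lap := integral_nonneg fun x => by positivity
      nlinarith [sq_nonneg (∫ x, (φ i x) ^ 2 ∂lap)]

theorem gp_var (h1 : S_L3) : Pool.Agent.H174.GP.S_var := by
  classical
  intro J φ hm ho h4
  obtain ⟨ψ, hψ⟩ : ∃ ψ : ℕ → ℝ → ℝ, ∀ j, ψ j = if j ∈ J then φ j else fun _ => 0 :=
    ⟨_, fun j => rfl⟩
  have hψJ : ∀ j ∈ J, ψ j = φ j := fun j hj => by rw [hψ, if_pos hj]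
  obtain ⟨-, a2, a3, a4⟩ := gp_all h1 ψ (fun j => by
      rw [hψ]
      split_ifs with h
      · exact hm j h
      · exact measurable_const) (fun j x => by
      rw [hψ]
      split_ifs with h
      · exact ho j h x
      · simp) (fun j => by
      rw [hψ]
      split_ifs with h
      · exact h4 j h
      · simp) J
  have b1 : ∀ ω : ℕ → ℝ, ∑ j ∈ J, ψ j (ω j) = ∑ j ∈ J, φ j (ω j) :=
    fun ω => Finset.sum_congr rfl fun j hj => by rw [hψJ j hj]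
  have b2 : ∀ k : ℕ, ∑ j ∈ J, ∫ x, (ψ j x) ^ k ∂lap = ∑ j ∈ J, ∫ x, (φ j x) ^ k ∂lap :=
    fun k => Finset.sum_congr rfl fun j hj => by rw [hψJ j hj]
  simp only [b1, b2] at a2 a3 a4
  exact ⟨a2, a3, a4⟩

end Pool.Agent.H404.GP174.Var
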